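import Mathlib
import Pool.Agent.Run7.h303.RB.E
set_option autoImplicit false

/-! The restriction conjecture for the paraboloid in `ℝ^d`, `d = n + 1 ≥ 3`, in the full range
`q > 2d/(d-1)`, for products (and multilinear forms) of radial functions of disjoint blocks of
coordinates, and for absolutely convergent sums of modulated functions of this kind. -/

namespace Pool.Agent.Results.MP_b7167f_an.BlockRadialProducts

open MeasureTheory Set Complex
open scoped ENNReal NNReal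

/-- the phase `ξ · x + |ξ|² t` at `y = (x, t)` -/
def phase {n : ℕ} (ξ : Fin n → ℝ) (y : (Fin n → ℝ) × ℝ) : ℝ :=
  ∑ j, ξ j * y.1 j + (∑ j, ξ j ^ 2) * y.2

/-- The extension operator of the truncated paraboloid in `ℝ^(n+1)`. -/
noncomputable def ext {n : ℕ} (f : (Fin n → ℝ) → ℂ) (y : (Fin n → ℝ) × ℝ) : ℂ :=
  ∫ ξ in Icc (-1 : Fin n → ℝ) 1, f ξ * cexp (2 * Real.pi * I * (phase ξ y : ℂ))

/-- The block `{i | β i = k}` has only one coordinate `j`, and `g` is an arbitrary (strongly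
measurable) function of it with values in the unit ball. -/
def OneCoordinate {n N : ℕ} {H : Type} [NormedAddCommGroup H] (β : Fin n → Fin N) (k : Fin N)
    (g : (Fin n → ℝ) → H) : Prop :=
  ∃ j, (∀ i, β i = k ↔ i = j) ∧ ∃ b : ℝ → H, StronglyMeasurable b ∧
    (∀ u ∈ Icc (-1 : ℝ) 1, ‖b u‖ ≤ 1) ∧ ∀ ξ, g ξ = b (ξ j)

/-- `g` is a radial function about some centre `c` of the coordinates in the block
`{j | β j = k}`, with values in the unit ball, supported in a ball about `c` inside the cube. -/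
def RadialInBlock {n N : ℕ} {H : Type} [NormedAddCommGroup H] (β : Fin n → Fin N) (k : Fin N)
    (g : (Fin n → ℝ) → H) : Prop :=
  ∃ (c : Fin n → ℝ) (R : ℝ) (a : ℝ → H), StronglyMeasurable a ∧ (∀ ρ, ‖a ρ‖ ≤ 1) ∧
    (∀ ρ, R < ρ → a ρ = 0) ∧ (∀ j, β j = k → |c j| + R ≤ 1) ∧
    ∀ ξ, g ξ = a (√(∑ j with β j = k, (ξ j - c j) ^ 2))

/-- Multilinear forms of norm at most one of functions of disjoint blocks of coordinates, which
are radial, or arbitrary if the block has only one coordinate. -/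
def BlockProduct (n : ℕ) (f : (Fin n → ℝ) → ℂ) : Prop :=
  ∃ (N : ℕ) (β : Fin n → Fin N) (H : Type) (_ : NormedAddCommGroup H) (_ : InnerProductSpace ℂ H)
    (_ : CompleteSpace H) (M : ContinuousMultilinearMap ℂ (fun _ : Fin N => H) ℂ)
    (g : Fin N → (Fin n → ℝ) → H), Function.Surjective β ∧ (∀ x, ‖M x‖ ≤ ∏ k, ‖x k‖) ∧
    (∀ k, OneCoordinate β k (g k) ∨ RadialInBlock β k (g k)) ∧ ∀ ξ, f ξ = M fun k => g k ξ

theorem result (n : ℕ) (hn : 2 ≤ n) (q : ℝ) (hq : 2 * ((n : ℝ) + 1) / n < q) :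
    ∃ C : ℝ≥0, ∀ (l : ℕ → ℂ) (z : ℕ → (Fin n → ℝ) × ℝ) (f : ℕ → (Fin n → ℝ) → ℂ),
      ∑' i, ‖l i‖ₑ ≤ 1 → (∀ i, BlockProduct n (f i)) →
      ∫⁻ y : (Fin n → ℝ) × ℝ, ‖ext (fun ξ => ∑' i, l i *
        (cexp (2 * Real.pi * I * (phase ξ (z i) : ℂ)) * f i ξ)) y‖ₑ ^ q ≤ C := by
  obtain ⟨C, hC⟩ := Run7.h303.RB.super n hn q hq
  refine ⟨C, ?_⟩
  intro l z f hl hf
  refine le_trans (le_of_eq ?_) (hC l z f hl hf)
  apply lintegral_congr
  intro y
  congr 2
  unfold ext Run7.h303.RB.ext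
  apply integral_congr_ae
  refine Filter.Eventually.of_forall fun ξ => ?_
  simp only
  rw [mul_comm]
  rfl

end Pool.Agent.Results.MP_b7167f_an.BlockRadialProducts
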