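import Mathlib
import Pool.Agent.Run7.h783.RV.Prod2
set_option autoImplicit false

/-!
# The restriction conjecture for products of planar functions that are rough in the angle

The restriction conjecture for the paraboloid in `ℝ^d`, `d = n + 1`, in the full range `q > 2d/(d-1)` and on
all of `ℝ^d`, for the following functions.  The `n` coordinates are split (by `e`) into `m₁` single
coordinates and `m₂ ≥ 1` pairs, and

`f(ξ) = M(a_1(ξ_(e 1)), …, a_(m₁)(ξ_(e m₁))) ∏_j F_j(ξ_(pair j))`,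

where the `a_i` are arbitrary measurable functions of one coordinate with values in the unit ball of a
Hilbert space, `M` is an arbitrary multilinear form of norm at most `1`, and the `F_j` are superpositions
`∫ g_s dν(s)` of atoms: an atom is a function `g` on `[-1,1]²` such that, for some point `a`, some modulation
`G = e^{i(η·x + β|x|²)} g` and some `m` of norm at most `1` in `L^q`,

`|G(x) - G(y)| ≤ m(x) - m(y)` if `x ≠ a` and `y` lies on the ray from `a` through `x`, behind `x`.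

No regularity, except measurability, is assumed in the angular variable: `G(a + r ω) = w(ω) h(r)` is an example
if `w` is bounded and measurable and `h` of bounded variation.  The point `a`, `η`, `β` and `m` may depend on the
atom, in an arbitrary manner.
-/

namespace Pool.Agent.Results.MP_b7167f_an.ProductsRoughInAngles

open MeasureTheory Set Complex
open scoped ENNReal NNReal
open Pool.Agent.TH277

/-- The extension operator of the truncated paraboloid in `ℝ^(n+1)`. -/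
noncomputable def ext {n : ℕ} (f : (Fin n → ℝ) → ℂ) (y : (Fin n → ℝ) × ℝ) : ℂ :=
  ∫ ξ in Icc (-1 : Fin n → ℝ) 1,
    f ξ * cexp (2 * Real.pi * I * ((∑ j, ξ j * y.1 j + (∑ j, ξ j ^ 2) * y.2 : ℝ) : ℂ))

/-- `e^{i(η·x + β|x|²)} g(x)` -/
noncomputable def modulate (η : ℝ × ℝ) (β : ℝ) (g : ℝ × ℝ → ℂ) (x : ℝ × ℝ) : ℂ :=
  cexp (I * ((η.1 * x.1 + η.2 * x.2 + β * (x.1 ^ 2 + x.2 ^ 2) : ℝ) : ℂ)) * g x

/-- `g` vanishes outside the square `[-1,1]²` and there are `a ∈ [-R,R]²`, `η ∈ ℝ²`, `β ∈ ℝ` and a function `m`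
with `‖m‖_q ≤ 1`, vanishing outside `[-R,R]²`, such that `G = modulate η β g` satisfies
`|G(a + v) - G(a + ρ v)| ≤ m(a + v) - m(a + ρ v)` for all `v ≠ 0` and `ρ ≥ 1`. -/
def IsAtom (q R : ℝ) (g : ℝ × ℝ → ℂ) : Prop :=
  ∃ (a η : ℝ × ℝ) (β : ℝ) (m : ℝ × ℝ → ℝ), a ∈ Icc (-R, -R) (R, R) ∧ Measurable m ∧
    ∫⁻ x, ‖m x‖ₑ ^ q ≤ 1 ∧ (∀ x ∉ Icc (-1, -1) (1, 1), g x = 0) ∧
    (∀ x ∉ Icc (-R, -R) (R, R), m x = 0) ∧
    ∀ v : ℝ × ℝ, v ≠ 0 → ∀ ρ : ℝ, 1 ≤ ρ →
      ‖modulate η β g (a + v) - modulate η β g (a + ρ • v)‖ ≤ m (a + v) - m (a + ρ • v)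

/-- **Theorem.** -/
theorem result (m₁ m₂ n : ℕ) (hm₂ : 1 ≤ m₂) (hn : n = m₁ + 2 * m₂) (q R : ℝ)
    (hq : 2 * ((n : ℝ) + 1) / n < q) (hR : 1 ≤ R) :
    ∃ C : ℝ≥0, ∀ (e : Fin m₁ ⊕ (Fin m₂ ⊕ Fin m₂) ≃ Fin n) (H : Type) [NormedAddCommGroup H]
      [InnerProductSpace ℂ H] [CompleteSpace H]
      (M : ContinuousMultilinearMap ℂ (fun _ : Fin m₁ => H) ℂ) (a : Fin m₁ → ℝ → H)
      (S : Fin m₂ → Type) [∀ j, MeasurableSpace (S j)] (ν : ∀ j, Measure (S j))
      [∀ j, IsFiniteMeasure (ν j)] (g : ∀ j, S j → ℝ × ℝ → ℂ),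
      (∀ x, ‖M x‖ ≤ ∏ m, ‖x m‖) → (∀ m, StronglyMeasurable (a m)) →
      (∀ m, ∀ u ∈ Icc (-1 : ℝ) 1, ‖a m u‖ ≤ 1) →
      (∀ j, Measurable (Function.uncurry (g j))) → (∀ j s, IsAtom q R (g j s)) →
      ∫⁻ y : (Fin n → ℝ) × ℝ,
        ‖ext (fun ξ => M (fun m => a m (ξ (e (Sum.inl m)))) *
          ∏ j, ∫ s, g j s (ξ (e (Sum.inr (Sum.inl j))), ξ (e (Sum.inr (Sum.inr j)))) ∂ν j) y‖ₑ ^ q
        ≤ C * ∏ j, ν j univ ^ q := by
  obtain ⟨C, hC⟩ := Run7.h783.RV.blocks m₁ m₂ n hm₂ hn q R hq hR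
  refine ⟨C, ?_⟩
  intro e H _ _ _ M a S _ ν _ g hM ham hab hg hat
  set a' : Fin m₁ → ℝ → H := fun m => (Icc (-1 : ℝ) 1).indicator (a m) with ha'
  have hM1 : ‖M‖ ≤ 1 := by
    apply ContinuousMultilinearMap.opNorm_le_bound zero_le_one
    intro x
    rw [one_mul]
    exact hM x
  have hA : ∀ m, HT.Adm (a' m) := by
    intro m
    constructor
    · exact (ham m).indicator measurableSet_Icc
    · intro u
      by_cases h : u ∈ Icc (-1 : ℝ) 1
      · simp only [ha', indicator_of_mem h]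
        exact hab m u h
      · simp only [ha', indicator_of_notMem h, norm_zero]
        exact zero_le_one
  have h1 := hC e H M a' hM1 hA S ν g hg hat
  refine le_trans (le_of_eq ?_) h1
  apply lintegral_congr
  intro y
  congr 2
  unfold ext HT.EE
  apply setIntegral_congr_fun measurableSet_Icc
  intro ξ hξ
  have hc : ∀ m, ξ m ∈ Icc (-1 : ℝ) 1 := fun m => ⟨hξ.1 m, hξ.2 m⟩
  have e1 : (fun m => a' m ((CB.Phi e ξ).1 m)) = fun m => a m (ξ (e (Sum.inl m))) := by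
    ext m
    show a' m (ξ (e (Sum.inl m))) = _
    simp only [ha', indicator_of_mem (hc _)]
  show _ = _ * (M (fun m => a' m ((CB.Phi e ξ).1 m)) * _)
  rw [e1]
  exact mul_comm _ _

end Pool.Agent.Results.MP_b7167f_an.ProductsRoughInAngles
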