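import Mathlib
import Pool.Agent.Run7.h485.RR.Atom
set_option autoImplicit false

/-!
# The restriction conjecture for functions that are rough along the rays from a point

Let `E` be the extension operator of the truncated paraboloid in `ℝ^d`, `d = n + 1`.  A bounded function on the
square `[-1,1]²` is considered which is only *measurable* along the rays from a point `a`, and regular along the
circles about `a`, in the `L¹` sense.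

* In `ℝ³`: if `|g| ≤ 1` and, for some modulation `G = e^{i(η·x + β|x|²)} g`,
  `∫ |G(rot a h x) - G(x)| dx ≤ B h^γ` for `0 < h ≤ 1` (`rot a h` is the rotation by `h` about `a`), then
  `‖Eg‖_q ≤ C (1 + B)^(1/(2+γ))` for all `q > 2(2+γ)/(1+γ)`; for `γ = 1` (bounded variation along the
  circles) this is the conjectured range `q > 3`.
* In `ℝ^d`, `d ≥ 3`: products of planar factors which are superpositions of such functions and of an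
  arbitrary multilinear form of functions of one coordinate, in the range `q > 2d/(d-1)`.
-/

namespace Pool.Agent.Results.MP_b7167f_an.RoughAlongRays

open MeasureTheory Set Complex
open scoped ENNReal NNReal
open Pool.Agent.TH277
open Run7.h485.RR (q3 CAtom CircMod catom_mix catom_l1 gam_circ blocksG)

/-- The extension operator of the truncated paraboloid in `ℝ^(n+1)`. -/
noncomputable def ext {n : ℕ} (f : (Fin n → ℝ) → ℂ) (y : (Fin n → ℝ) × ℝ) : ℂ :=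
  ∫ ξ in Icc (-1 : Fin n → ℝ) 1,
    f ξ * cexp (2 * Real.pi * I * ((∑ j, ξ j * y.1 j + (∑ j, ξ j ^ 2) * y.2 : ℝ) : ℂ))

/-- `e^{i(η·x + β|x|²)} g(x)` -/
noncomputable def modulate (η : ℝ × ℝ) (β : ℝ) (g : ℝ × ℝ → ℂ) (x : ℝ × ℝ) : ℂ :=
  cexp (I * ((η.1 * x.1 + η.2 * x.2 + β * (x.1 ^ 2 + x.2 ^ 2) : ℝ) : ℂ)) * g x

/-- The rotation about the point `a` by the angle `h`. -/
noncomputable def rot (a : ℝ × ℝ) (h : ℝ) (x : ℝ × ℝ) : ℝ × ℝ :=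
  (a.1 + (Real.cos h * (x.1 - a.1) - Real.sin h * (x.2 - a.2)),
    a.2 + (Real.sin h * (x.1 - a.1) + Real.cos h * (x.2 - a.2)))

/-- `|g| ≤ 1`, `g` vanishes outside the square `[-1,1]²` and there are a centre `a ∈ [-A,A]²` and `η ∈ ℝ²`,
`β ∈ ℝ` such that `G = modulate η β g` satisfies `∫_{|x - a| ≤ ρ} |G(rot a h x) - G(x)| dx ≤ V (ρ h)^s` for
all `ρ > 0` and `0 < h ≤ 1`. -/
def IsAtom (s A V : ℝ) (g : ℝ × ℝ → ℂ) : Prop :=
  (∀ x, ‖g x‖ ≤ 1) ∧ (∀ x ∉ Icc (-1, -1) (1, 1), g x = 0) ∧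
  ∃ (a η : ℝ × ℝ) (β : ℝ), a ∈ Icc (-A, -A) (A, A) ∧
    ∀ ρ : ℝ, 0 < ρ → ∀ h ∈ Ioc (0 : ℝ) 1,
      ∫⁻ x in {x : ℝ × ℝ | (x.1 - a.1) ^ 2 + (x.2 - a.2) ^ 2 ≤ ρ ^ 2},
        ‖modulate η β g (rot a h x) - modulate η β g x‖ₑ ≤ ENNReal.ofReal (V * (ρ * h) ^ s)

theorem products (m₁ m₂ n : ℕ) (q s A : ℝ) (hm₂ : 1 ≤ m₂) (hn : n = m₁ + 2 * m₂)
    (hq : 2 * ((n : ℝ) + 1) / n < q) (hs0 : 0 < s) (hs2 : s ≤ 2)
    (hqs : 8 < (2 + (q - 2) * n / 2) * (2 + s)) (hA : 1 ≤ A) :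
    ∃ C : ℝ≥0, ∀ (V : ℝ), 0 ≤ V → ∀ (e : Fin m₁ ⊕ (Fin m₂ ⊕ Fin m₂) ≃ Fin n) (H : Type)
      [NormedAddCommGroup H] [InnerProductSpace ℂ H] [CompleteSpace H]
      (M : ContinuousMultilinearMap ℂ (fun _ : Fin m₁ => H) ℂ) (a : Fin m₁ → ℝ → H)
      (S : Fin m₂ → Type) [∀ j, MeasurableSpace (S j)] (ν : ∀ j, Measure (S j))
      [∀ j, IsFiniteMeasure (ν j)] (g : ∀ j, S j → ℝ × ℝ → ℂ),
      (∀ x, ‖M x‖ ≤ ∏ m, ‖x m‖) → (∀ m, StronglyMeasurable (a m)) →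
      (∀ m, ∀ u ∈ Icc (-1 : ℝ) 1, ‖a m u‖ ≤ 1) →
      (∀ j, Measurable (Function.uncurry (g j))) → (∀ j s', IsAtom s A V (g j s')) →
      ∫⁻ y : (Fin n → ℝ) × ℝ,
        ‖ext (fun ξ => M (fun m => a m (ξ (e (Sum.inl m)))) *
          ∏ j, ∫ s, g j s (ξ (e (Sum.inr (Sum.inl j))), ξ (e (Sum.inr (Sum.inr j)))) ∂ν j) y‖ₑ ^ q
        ≤ C * ENNReal.ofReal ((1 + V) ^ (m₂ * (2 + (q - 2) * n / 2) / n)) * ∏ j, ν j univ ^ q := by
  have hn2 : 2 ≤ n := by omega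
  have hn0 : (0 : ℝ) < n := by
    have : 0 < n := by omega
    exact_mod_cast this
  have hq3 : 3 < q3 n q := by
    unfold q3
    rw [div_lt_iff₀ hn0] at hq
    linarith
  have hqs' : 8 < q3 n q * (2 + s) := hqs
  have hq0 : 0 < q := lt_trans (by positivity) hq
  obtain ⟨C₁, hC₁, h1⟩ := catom_mix n hn2 q s A hs0 hs2 hq3 hqs' hA
  obtain ⟨C₂, hC₂, h2⟩ := blocksG m₁ m₂ n hm₂ hn q hq
  have hCne : C₂ * (C₁ ^ (2 / (n : ℝ))) ^ m₂ ≠ ∞ :=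
    ENNReal.mul_ne_top hC₂ (ENNReal.pow_ne_top (ENNReal.rpow_ne_top_of_nonneg (by positivity) hC₁))
  lift C₂ * (C₁ ^ (2 / (n : ℝ))) ^ m₂ to ℝ≥0 using hCne with C hC
  refine ⟨C, ?_⟩
  intro V hV e H _ _ _ M a S _ ν _ g hM ham hab hg hat
  set a' : Fin m₁ → ℝ → H := fun m => (Icc (-1 : ℝ) 1).indicator (a m) with ha'
  have hM1 : ‖M‖ ≤ 1 := by
    apply ContinuousMultilinearMap.opNorm_le_bound zero_le_one
    intro x
    rw [one_mul]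
    exact hM x
  have hAd : ∀ m, HT.Adm (a' m) := by
    intro m
    constructor
    · exact (ham m).indicator measurableSet_Icc
    · intro u
      by_cases h : u ∈ Icc (-1 : ℝ) 1
      · simp only [ha', indicator_of_mem h]
        exact hab m u h
      · simp only [ha', indicator_of_notMem h, norm_zero]
        exact zero_le_one
  have hat' : ∀ j s', CAtom s A V (g j s') := fun j s' => hat j s'
  have hgm : ∀ j s', Measurable (g j s') := fun j s' => (hg j).comp measurable_prodMk_left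
  have hV1 : (0 : ℝ) ≤ 1 + V := by linarith
  have h3 := h2 (volume (Icc (-1, -1) ((1, 1) : ℝ × ℝ)))
    (C₁ * ENNReal.ofReal ((1 + V) ^ (q3 n q / 2))) (isCompact_Icc.measure_lt_top.ne) e H M a' hM1 hAd S ν g hg
    (fun j s' x hx => (hat j s').2.1 x hx) (fun j s' => catom_l1 s A V _ (hat' j s'))
    (fun j s' => h1 V hV _ (hgm j s') (hat' j s'))
  have h4 : C₂ * ((C₁ * ENNReal.ofReal ((1 + V) ^ (q3 n q / 2))) ^ (2 / (n : ℝ))) ^ m₂ =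
      C * ENNReal.ofReal ((1 + V) ^ (m₂ * (2 + (q - 2) * n / 2) / n)) := by
    rw [hC, ENNReal.mul_rpow_of_nonneg _ _ (by positivity), mul_pow, mul_assoc]
    congr 2
    rw [ENNReal.ofReal_rpow_of_nonneg (Real.rpow_nonneg hV1 _) (by positivity), ← Real.rpow_mul hV1,
      ← ENNReal.ofReal_pow (Real.rpow_nonneg hV1 _), ← Real.rpow_natCast, ← Real.rpow_mul hV1]
    congr 2
    unfold q3
    field_simp
  rw [h4] at h3
  refine le_trans (le_of_eq ?_) h3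
  apply lintegral_congr
  intro y
  congr 2
  unfold ext HT.EE
  apply setIntegral_congr_fun measurableSet_Icc
  intro ξ hξ
  have hc : ∀ m, ξ m ∈ Icc (-1 : ℝ) 1 := fun m => ⟨hξ.1 m, hξ.2 m⟩
  have e1 : (fun m => a' m ((CB.Phi e ξ).1 m)) = fun m => a m (ξ (e (Sum.inl m))) := by
    ext m
    show a' m (ξ (e (Sum.inl m))) = _
    simp only [ha', indicator_of_mem (hc _)]
  show _ = _ * (M (fun m => a' m ((CB.Phi e ξ).1 m)) * _)
  rw [e1]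
  exact mul_comm _ _

/-- the coordinates of the plane -/
def e2 : Fin 0 ⊕ (Fin 1 ⊕ Fin 1) ≃ Fin 2 where
  toFun := Sum.elim (fun i => i.elim0) (Sum.elim (fun _ => 0) (fun _ => 1))
  invFun := fun i => if i = 0 then Sum.inr (Sum.inl 0) else Sum.inr (Sum.inr 0)
  left_inv := by
    rintro (i | i | i)
    · exact i.elim0
    · simp [Subsingleton.elim i 0]
    · simp [Subsingleton.elim i 0]
  right_inv := by
    intro i
    fin_cases i <;> simp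

theorem space (q γ A : ℝ) (hγ0 : 0 < γ) (hγ1 : γ ≤ 1) (hq : 2 * (2 + γ) / (1 + γ) < q) (hA : 1 ≤ A) :
    ∃ C : ℝ≥0, ∀ B : ℝ, 0 ≤ B → ∀ g : ℝ × ℝ → ℂ, Measurable g → (∀ x, ‖g x‖ ≤ 1) →
      (∀ x ∉ Icc (-1, -1) (1, 1), g x = 0) →
      ∀ (a η : ℝ × ℝ) (β : ℝ), a ∈ Icc (-A, -A) (A, A) →
      (∀ h ∈ Ioc (0 : ℝ) 1, ∫⁻ x, ‖modulate η β g (rot a h x) - modulate η β g x‖ₑ ≤
        ENNReal.ofReal (B * h ^ γ)) →
      ∫⁻ y : (Fin 2 → ℝ) × ℝ, ‖ext (fun ξ => g (ξ 0, ξ 1)) y‖ₑ ^ q ≤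
        C * ENNReal.ofReal ((1 + B) ^ (q / (2 + γ))) := by
  have hg2 : (0 : ℝ) < 2 + γ := by linarith
  have hg1 : (0 : ℝ) < 1 + γ := by linarith
  rw [div_lt_iff₀ hg1] at hq
  have hq3 : 3 < q := by nlinarith
  set s : ℝ := 2 * γ / (2 + γ) with hs
  have hs0 : 0 < s := by positivity
  have hs2 : s ≤ 2 := by
    rw [hs, div_le_iff₀ hg2]
    linarith
  have hqs : 8 < (2 + (q - 2) * ((2 : ℕ) : ℝ) / 2) * (2 + s) := by
    have h1 : (2 + (q - 2) * ((2 : ℕ) : ℝ) / 2) = q := by push_cast; ring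
    have h2 : 2 + s = 4 * (1 + γ) / (2 + γ) := by
      rw [hs]; field_simp; ring
    rw [h1, h2, ← mul_div_assoc, lt_div_iff₀ hg2]
    linarith
  obtain ⟨C, hC⟩ := products 0 1 2 q s A le_rfl rfl (by push_cast; linarith) hs0 hs2 hqs hA
  refine ⟨C * Real.toNNReal (3 ^ (q / 2)), ?_⟩
  intro B hB g hgm hgb hgz a η β ha hmod
  have hat : IsAtom s A (2 * B ^ (2 / (2 + γ))) g := by
    refine ⟨hgb, hgz, a, η, β, ha, ?_⟩
    apply gam_circ a B γ hB hγ0 hγ1 (modulate η β g) _ hmod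
    intro x
    have := Run7.h783.RV.md_norm η β g x
    calc ‖modulate η β g x‖ = ‖g x‖ := this
      _ ≤ 1 := hgb x
  have hV : (0 : ℝ) ≤ 2 * B ^ (2 / (2 + γ)) := by positivity
  have h1 := hC (2 * B ^ (2 / (2 + γ))) hV e2 ℂ
    (ContinuousMultilinearMap.mkPiAlgebra ℂ (Fin 0) ℂ) (fun _ _ => 1) (fun _ => Unit)
    (fun _ => Measure.dirac ()) (fun _ _ => g)
    (by
      intro x
      simp)
    (fun m => m.elim0) (fun m => m.elim0)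
    (fun j => hgm.comp measurable_snd) (fun _ _ => hat)
  have h2 : (fun ξ : Fin 2 → ℝ => (ContinuousMultilinearMap.mkPiAlgebra ℂ (Fin 0) ℂ)
      (fun m => (fun _ _ => 1 : Fin 0 → ℝ → ℂ) m (ξ (e2 (Sum.inl m)))) *
      ∏ j : Fin 1, ∫ _s : Unit, g (ξ (e2 (Sum.inr (Sum.inl j))), ξ (e2 (Sum.inr (Sum.inr j))))
        ∂(Measure.dirac ())) = fun ξ => g (ξ 0, ξ 1) := by
    funext ξ
    simp [e2]
  rw [h2] at h1
  refine h1.trans ?_
  have h3 : ∏ j : Fin 1, (Measure.dirac () : Measure Unit) univ ^ q = 1 := by simp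
  have hp : (0 : ℝ) ≤ 2 / (2 + γ) := by positivity
  have hp1 : 2 / (2 + γ) ≤ 1 := by
    rw [div_le_one hg2]
    linarith
  have h4 : (1 + 2 * B ^ (2 / (2 + γ))) ^ ((((1 : ℕ) : ℝ)) * (2 + (q - 2) * ((2 : ℕ) : ℝ) / 2) / ((2 : ℕ) : ℝ)) ≤
      3 ^ (q / 2) * (1 + B) ^ (q / (2 + γ)) := by
    have e0 : (((1 : ℕ) : ℝ)) * (2 + (q - 2) * ((2 : ℕ) : ℝ) / 2) / ((2 : ℕ) : ℝ) = q / 2 := by
      push_cast
      ring
    rw [e0]
    have e3 : B ^ (2 / (2 + γ)) ≤ (1 + B) ^ (2 / (2 + γ)) :=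
      Real.rpow_le_rpow hB (by linarith) hp
    have e4 : (1 : ℝ) ≤ (1 + B) ^ (2 / (2 + γ)) := Real.one_le_rpow (by linarith) hp
    have e5 : 1 + 2 * B ^ (2 / (2 + γ)) ≤ 3 * (1 + B) ^ (2 / (2 + γ)) := by linarith
    calc (1 + 2 * B ^ (2 / (2 + γ))) ^ (q / 2) ≤ (3 * (1 + B) ^ (2 / (2 + γ))) ^ (q / 2) :=
          Real.rpow_le_rpow (by positivity) e5 (by linarith)
      _ = 3 ^ (q / 2) * (1 + B) ^ (q / (2 + γ)) := by
          rw [Real.mul_rpow (by norm_num) (by positivity), ← Real.rpow_mul (by linarith)]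
          congr 2
          field_simp
  rw [h3, mul_one]
  calc (C : ℝ≥0∞) * ENNReal.ofReal ((1 + 2 * B ^ (2 / (2 + γ))) ^
        ((((1 : ℕ) : ℝ)) * (2 + (q - 2) * ((2 : ℕ) : ℝ) / 2) / ((2 : ℕ) : ℝ)))
      ≤ (C : ℝ≥0∞) * ENNReal.ofReal (3 ^ (q / 2) * (1 + B) ^ (q / (2 + γ))) := by
        gcongr
    _ = _ := by
        rw [ENNReal.ofReal_mul (by positivity), ENNReal.coe_mul, mul_assoc]
        rfl

/-- **Theorem.** -/
theorem result :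
    (∀ (m₁ m₂ n : ℕ) (q s A : ℝ), 1 ≤ m₂ → n = m₁ + 2 * m₂ → 2 * ((n : ℝ) + 1) / n < q → 0 < s →
      s ≤ 2 → 8 < (2 + (q - 2) * n / 2) * (2 + s) → 1 ≤ A →
      ∃ C : ℝ≥0, ∀ (V : ℝ), 0 ≤ V → ∀ (e : Fin m₁ ⊕ (Fin m₂ ⊕ Fin m₂) ≃ Fin n) (H : Type)
        [NormedAddCommGroup H] [InnerProductSpace ℂ H] [CompleteSpace H]
        (M : ContinuousMultilinearMap ℂ (fun _ : Fin m₁ => H) ℂ) (a : Fin m₁ → ℝ → H)
        (S : Fin m₂ → Type) [∀ j, MeasurableSpace (S j)] (ν : ∀ j, Measure (S j))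
        [∀ j, IsFiniteMeasure (ν j)] (g : ∀ j, S j → ℝ × ℝ → ℂ),
        (∀ x, ‖M x‖ ≤ ∏ m, ‖x m‖) → (∀ m, StronglyMeasurable (a m)) →
        (∀ m, ∀ u ∈ Icc (-1 : ℝ) 1, ‖a m u‖ ≤ 1) →
        (∀ j, Measurable (Function.uncurry (g j))) → (∀ j s', IsAtom s A V (g j s')) →
        ∫⁻ y : (Fin n → ℝ) × ℝ,
          ‖ext (fun ξ => M (fun m => a m (ξ (e (Sum.inl m)))) *
            ∏ j, ∫ s, g j s (ξ (e (Sum.inr (Sum.inl j))), ξ (e (Sum.inr (Sum.inr j)))) ∂ν j) y‖ₑ ^ q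
          ≤ C * ENNReal.ofReal ((1 + V) ^ (m₂ * (2 + (q - 2) * n / 2) / n)) * ∏ j, ν j univ ^ q) ∧
    (∀ (q γ A : ℝ), 0 < γ → γ ≤ 1 → 2 * (2 + γ) / (1 + γ) < q → 1 ≤ A →
      ∃ C : ℝ≥0, ∀ B : ℝ, 0 ≤ B → ∀ g : ℝ × ℝ → ℂ, Measurable g → (∀ x, ‖g x‖ ≤ 1) →
        (∀ x ∉ Icc (-1, -1) (1, 1), g x = 0) →
        ∀ (a η : ℝ × ℝ) (β : ℝ), a ∈ Icc (-A, -A) (A, A) →
        (∀ h ∈ Ioc (0 : ℝ) 1, ∫⁻ x, ‖modulate η β g (rot a h x) - modulate η β g x‖ₑ ≤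
          ENNReal.ofReal (B * h ^ γ)) →
        ∫⁻ y : (Fin 2 → ℝ) × ℝ, ‖ext (fun ξ => g (ξ 0, ξ 1)) y‖ₑ ^ q ≤
          C * ENNReal.ofReal ((1 + B) ^ (q / (2 + γ)))) :=
  ⟨products, space⟩

end Pool.Agent.Results.MP_b7167f_an.RoughAlongRays
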