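import Mathlib
import Pool.Agent.Run7.h303.RB.R5
set_option autoImplicit false

/-! The restriction conjecture for the paraboloid in `ℝ^d`, `d = n + 1 ≥ 3`: products (and
multilinear forms) of functions of disjoint blocks of coordinates, arbitrary bounded functions of
blocks with at most `p` coordinates in total, and radial functions of the other blocks (arbitrary
functions if the block has only one coordinate), in the range `q > 2 + 4/(2n - p)`. -/

namespace Pool.Agent.Results.MP_b7167f_an.RoughBlocks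

open MeasureTheory Set Complex
open scoped ENNReal NNReal

/-- the phase `ξ · x + |ξ|² t` at `y = (x, t)` -/
def phase {n : ℕ} (ξ : Fin n → ℝ) (y : (Fin n → ℝ) × ℝ) : ℝ :=
  ∑ j, ξ j * y.1 j + (∑ j, ξ j ^ 2) * y.2

/-- The extension operator of the truncated paraboloid in `ℝ^(n+1)`. -/
noncomputable def ext {n : ℕ} (f : (Fin n → ℝ) → ℂ) (y : (Fin n → ℝ) × ℝ) : ℂ :=
  ∫ ξ in Icc (-1 : Fin n → ℝ) 1, f ξ * cexp (2 * Real.pi * I * (phase ξ y : ℂ))

/-- The block `{i | β i = k}` has only one coordinate `j`, and `g` is an arbitrary (strongly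
measurable) function of it with values in the unit ball. -/
def OneCoordinate {n N : ℕ} {H : Type} [NormedAddCommGroup H] (β : Fin n → Fin N) (k : Fin N)
    (g : (Fin n → ℝ) → H) : Prop :=
  ∃ j, (∀ i, β i = k ↔ i = j) ∧ ∃ b : ℝ → H, StronglyMeasurable b ∧
    (∀ u ∈ Icc (-1 : ℝ) 1, ‖b u‖ ≤ 1) ∧ ∀ ξ, g ξ = b (ξ j)

/-- `g` is a radial function about some centre `c` of the coordinates in the block
`{j | β j = k}`, with values in the unit ball, supported in a ball about `c` inside the cube. -/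
def RadialInBlock {n N : ℕ} {H : Type} [NormedAddCommGroup H] (β : Fin n → Fin N) (k : Fin N)
    (g : (Fin n → ℝ) → H) : Prop :=
  ∃ (c : Fin n → ℝ) (R : ℝ) (a : ℝ → H), StronglyMeasurable a ∧ (∀ ρ, ‖a ρ‖ ≤ 1) ∧
    (∀ ρ, R < ρ → a ρ = 0) ∧ (∀ j, β j = k → |c j| + R ≤ 1) ∧
    ∀ ξ, g ξ = a (√(∑ j with β j = k, (ξ j - c j) ^ 2))

/-- `g` is an arbitrary (strongly measurable) function of the coordinates in the block
`{j | β j = k}`, with values in the unit ball on the cube. -/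
def Arbitrary {n N : ℕ} {H : Type} [NormedAddCommGroup H] (β : Fin n → Fin N) (k : Fin N)
    (g : (Fin n → ℝ) → H) : Prop :=
  StronglyMeasurable g ∧ (∀ ξ ∈ Icc (-1 : Fin n → ℝ) 1, ‖g ξ‖ ≤ 1) ∧
    ∀ ξ η : Fin n → ℝ, (∀ j, β j = k → ξ j = η j) → g ξ = g η

/-- Multilinear forms of norm at most one of functions of disjoint blocks of coordinates, which
are arbitrary for the blocks in a set `S` (at most `p` coordinates belong to these blocks), and
radial, or arbitrary if the block has only one coordinate, for the other blocks. -/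
def BlockProduct (n p : ℕ) (f : (Fin n → ℝ) → ℂ) : Prop :=
  ∃ (N : ℕ) (β : Fin n → Fin N) (S : Finset (Fin N)) (H : Type) (_ : NormedAddCommGroup H)
    (_ : InnerProductSpace ℂ H) (_ : CompleteSpace H)
    (M : ContinuousMultilinearMap ℂ (fun _ : Fin N => H) ℂ) (g : Fin N → (Fin n → ℝ) → H),
    Function.Surjective β ∧ (∀ x, ‖M x‖ ≤ ∏ k, ‖x k‖) ∧
    (∀ k, k ∉ S → OneCoordinate β k (g k) ∨ RadialInBlock β k (g k)) ∧
    (∀ k ∈ S, Arbitrary β k (g k)) ∧ (Finset.univ.filter fun j => β j ∈ S).card ≤ p ∧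
    ∀ ξ, f ξ = M fun k => g k ξ

theorem result (n : ℕ) (hn : 2 ≤ n) (p : ℕ) (hp : p ≤ n) (q : ℝ)
    (hq : 2 + 4 / (2 * (n : ℝ) - p) < q) :
    ∃ C : ℝ≥0, ∀ (l : ℕ → ℂ) (z : ℕ → (Fin n → ℝ) × ℝ) (f : ℕ → (Fin n → ℝ) → ℂ),
      ∑' i, ‖l i‖ₑ ≤ 1 → (∀ i, BlockProduct n p (f i)) →
      ∫⁻ y : (Fin n → ℝ) × ℝ, ‖ext (fun ξ => ∑' i, l i *
        (cexp (2 * Real.pi * I * (phase ξ (z i) : ℂ)) * f i ξ)) y‖ₑ ^ q ≤ C := by
  obtain ⟨C, hC⟩ := Run7.h303.RB.superR n hn p hp q hq
  refine ⟨C, ?_⟩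
  intro l z f hl hf
  refine le_trans (le_of_eq ?_) (hC l z f hl hf)
  apply lintegral_congr
  intro y
  congr 2
  unfold ext Run7.h303.RB.ext
  apply integral_congr_ae
  refine Filter.Eventually.of_forall fun ξ => ?_
  simp only
  rw [mul_comm]
  rfl

end Pool.Agent.Results.MP_b7167f_an.RoughBlocks
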